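import Pool.Agent.U79.GY.Stm
import Pool.Agent.Y302.CQ.LowA

/-!
# Project GY, package LOW (helper891): the lower bound for the size of the class

After `Pool/Agent/U2/GD/LOW.lean` (helper2, after helper302 and helper413).
-/

set_option autoImplicit false

open scoped Classical

namespace Pool.Agent.U891.GY

open Finset
open Pool.Agent.U79.GY
open Pool.Agent.U115.GD (S_MER S_CHE)
open Pool.Agent.Y302.CQ (P2 M1 G1_lower)

/-- the class -/
def cls (G : Cfg) (p : ℕ) : Prop := Sp G p ∨ In G p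

/-- the residues outside the class -/
noncomputable def Res (G : Cfg) : Finset ℕ :=
  (range G.Q).filter fun a => Nat.Coprime a G.Q ∧ ¬ (a ∈ G.A ∨ a ∈ G.B)

theorem card_Res {G : Cfg} (h : Ok G) :
    G.A.card + G.B.card + (Res G).card = Nat.totient G.Q := by
  have h1 : Nat.totient G.Q = ((range G.Q).filter fun a => Nat.Coprime a G.Q).card := by
    rw [Nat.totient_eq_card_coprime]
    congr 1
    ext a
    simp only [mem_filter, Nat.coprime_comm]
  have h2 := Finset.card_filter_add_card_filter_not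
    (s := (range G.Q).filter fun a => Nat.Coprime a G.Q) (fun a => a ∈ G.A ∨ a ∈ G.B)
  have h3 : ((range G.Q).filter fun a => Nat.Coprime a G.Q).filter
      (fun a => a ∈ G.A ∨ a ∈ G.B) = G.A ∪ G.B := by
    ext a
    simp only [mem_filter, mem_union, mem_range]
    constructor
    · rintro ⟨-, a3⟩
      exact a3
    · rintro (a3 | a3)
      · exact ⟨⟨(h.hA a a3).1, (h.hA a a3).2⟩, Or.inl a3⟩
      · exact ⟨⟨(h.hB a a3).1, (h.hB a a3).2.1⟩, Or.inr a3⟩
  have h4 : Disjoint G.A G.B := by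
    rw [Finset.disjoint_left]
    intro a ha hb
    exact (h.hB a hb).2.2 ha
  have h5 : ((range G.Q).filter fun a => Nat.Coprime a G.Q).filter
      (fun a => ¬ (a ∈ G.A ∨ a ∈ G.B)) = Res G := by
    ext a
    simp only [mem_filter, Res, mem_range, and_assoc]
  rw [h3, h5, Finset.card_union_of_disjoint h4, ← h1] at h2
  exact h2

theorem tot_pos {G : Cfg} (h : Ok G) : (0 : ℝ) < (Nat.totient G.Q : ℝ) := by
  exact_mod_cast Nat.totient_pos.2 h.q0

theorem card_Res' {G : Cfg} (h : Ok G) :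
    ((Res G).card : ℝ) / (Nat.totient G.Q : ℝ) = 1 - dl G := by
  have h1 := card_Res h
  have h2 : (G.A.card : ℝ) + (G.B.card : ℝ) + ((Res G).card : ℝ) = (Nat.totient G.Q : ℝ) := by
    exact_mod_cast h1
  have h3 := tot_pos h
  unfold dl da db
  field_simp
  linarith

theorem dl_nonneg (G : Cfg) : 0 ≤ dl G := by
  unfold dl da db
  positivity

theorem dl_le {G : Cfg} (h : Ok G) : dl G ≤ 1 := by
  have h1 := card_Res' h
  have : 0 ≤ ((Res G).card : ℝ) / (Nat.totient G.Q : ℝ) := by positivity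
  linarith

theorem pr_of {G : Cfg} {p : ℕ} (h : cls G p) : p.Prime := by
  rcases h with h | h
  · exact h.1
  · exact h.1

/-- Mertens' theorem for the primes outside the class. -/
theorem mert (hM : S_MER) {G : Cfg} (h : Ok G) : ∃ C : ℝ, ∀ y : ℕ, 3 ≤ y →
    ∑ p ∈ P2 (cls G) y, (1 : ℝ) / p ≤ (1 - dl G) * Real.log (Real.log y) + C := by
  have hM' : ∀ a : ℕ, ∃ C : ℝ, Nat.Coprime a G.Q → ∀ y : ℕ, 3 ≤ y →
      |∑ p ∈ (range (y + 1)).filter (fun p => p.Prime ∧ p % G.Q = a % G.Q), (1 : ℝ) / p -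
        1 / (Nat.totient G.Q : ℝ) * Real.log (Real.log y)| ≤ C := by
    intro a
    by_cases ha : Nat.Coprime a G.Q
    · obtain ⟨C, hC⟩ := hM G.Q a h.q0 ha
      exact ⟨C, fun _ => hC⟩
    · exact ⟨0, fun h => absurd h ha⟩
  choose C hC using hM'
  obtain ⟨E, hE⟩ : ∃ E : Finset ℕ, E = G.Q.primeFactors := ⟨_, rfl⟩
  refine ⟨∑ p ∈ E, (1 : ℝ) / p + ∑ a ∈ Res G, C a, ?_⟩
  intro y hy
  have h1 := Finset.sum_filter_add_sum_filter_not (P2 (cls G) y)
    (fun p => p ∈ E) (fun p => (1 : ℝ) / p)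
  have h2 : ∑ p ∈ (P2 (cls G) y).filter (fun p => p ∈ E), (1 : ℝ) / p ≤
      ∑ p ∈ E, (1 : ℝ) / p := by
    apply Finset.sum_le_sum_of_subset_of_nonneg
    · intro p hp
      exact (mem_filter.mp hp).2
    · intro p _ _
      positivity
  have hmaps : ∀ p ∈ (P2 (cls G) y).filter (fun p => ¬ p ∈ E),
      p % G.Q ∈ Res G := by
    intro p hp
    rw [mem_filter, P2, mem_filter] at hp
    obtain ⟨⟨_, hpp, hpc⟩, hpQ⟩ := hp
    rw [hE] at hpQ
    rw [Res, mem_filter, mem_range]
    refine ⟨Nat.mod_lt _ h.q0, ?_, ?_⟩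
    · have h3 : Nat.Coprime p G.Q := by
        rw [Nat.Prime.coprime_iff_not_dvd hpp]
        intro h4
        exact hpQ (Nat.mem_primeFactors.2 ⟨hpp, h4, h.q0.ne'⟩)
      have h4 : Nat.gcd G.Q p = Nat.gcd (p % G.Q) G.Q := Nat.gcd_rec G.Q p
      unfold Nat.Coprime at h3 ⊢
      rw [← h4, Nat.gcd_comm]
      exact h3
    · rintro (ha | ha)
      · exact hpc (Or.inl ⟨hpp, ha⟩)
      · exact hpc (Or.inr ⟨hpp, ha⟩)
  have h3 : ∑ p ∈ (P2 (cls G) y).filter (fun p => ¬ p ∈ E), (1 : ℝ) / p ≤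
      ∑ a ∈ Res G, (1 / (Nat.totient G.Q : ℝ) * Real.log (Real.log y) + C a) := by
    rw [← Finset.sum_fiberwise_of_maps_to hmaps]
    apply Finset.sum_le_sum
    intro a ha
    have hco : Nat.Coprime a G.Q := by
      rw [Res, mem_filter] at ha
      exact ha.2.1
    have haQ : a % G.Q = a := by
      rw [Res, mem_filter, mem_range] at ha
      exact Nat.mod_eq_of_lt ha.1
    have h4 := (abs_le.mp (hC a hco y hy)).2
    have h5 : ∑ p ∈ ((P2 (cls G) y).filter (fun p => ¬ p ∈ E)).filter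
        (fun p => p % G.Q = a), (1 : ℝ) / p ≤
        ∑ p ∈ (range (y + 1)).filter (fun p => p.Prime ∧ p % G.Q = a % G.Q), (1 : ℝ) / p := by
      apply Finset.sum_le_sum_of_subset_of_nonneg
      · intro p hp
        rw [mem_filter, mem_filter, P2, mem_filter] at hp
        rw [mem_filter, haQ]
        exact ⟨hp.1.1.1, hp.1.1.2.1, hp.2⟩
      · intro p _ _
        positivity
    linarith
  rw [← h1]
  have h4 : ∑ a ∈ Res G, (1 / (Nat.totient G.Q : ℝ) * Real.log (Real.log y) + C a) =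
      (1 - dl G) * Real.log (Real.log y) + ∑ a ∈ Res G, C a := by
    rw [Finset.sum_add_distrib, Finset.sum_const, nsmul_eq_mul, ← card_Res' h]
    ring
  rw [h4] at h3
  linarith

theorem mem_M1 {G : Cfg} {y : ℕ} {S : Finset ℕ} (h : S ∈ M1 (cls G) y) :
    (∀ p ∈ S, p.Prime ∧ cls G p ∧ p ≤ y) ∧ ∏ p ∈ S, p ≤ y := by
  rw [M1, mem_filter, mem_powerset] at h
  refine ⟨fun p hp => ?_, h.2⟩
  have := h.1 hp
  rw [mem_filter, mem_range] at this
  exact ⟨this.2.1, this.2.2, by omega⟩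

/-- the pairs -/
noncomputable def DD (G : Cfg) (a₀ X y : ℕ) : Finset (Σ _ : Finset ℕ, ℕ) :=
  (M1 (cls G) y).sigma fun T => (range (X / (∏ p ∈ T, p) + 1)).filter
    fun r => y < r ∧ r.Prime ∧ r % G.Q = a₀

theorem card_DD_le {G : Cfg} {a₀ : ℕ} (ha₀ : a₀ ∈ G.A) (X y : ℕ) :
    (DD G a₀ X y).card ≤ (SS G X).card := by
  refine Finset.card_le_card_of_injOn (fun t => insert t.2 t.1) ?_ ?_
  · rintro ⟨T, r⟩ ht
    rw [mem_coe, DD, mem_sigma, mem_filter, mem_range] at ht
    obtain ⟨hT, hr, hry, hrp, hrQ⟩ := ht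
    obtain ⟨h1, h2⟩ := mem_M1 hT
    simp only at hr hry hrp hrQ
    have k6 : 0 < ∏ p ∈ T, p := Finset.prod_pos fun p hp => (h1 p hp).1.pos
    have hrT : r ∉ T := fun h => by have := (h1 r h).2.2; omega
    have hprod : r * ∏ p ∈ T, p ≤ X := by
      have : r ≤ X / ∏ p ∈ T, p := by omega
      exact (Nat.le_div_iff_mul_le k6).mp this
    have hcl : cls G r := by
      refine Or.inl ⟨hrp, ?_⟩
      unfold Hc
      rw [hrQ]
      exact ha₀
    have hprod' : ∏ p ∈ insert r T, p ≤ X := by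
      rw [Finset.prod_insert hrT]
      exact hprod
    have hall : ∀ p ∈ insert r T, cls G p := by
      intro p hp
      rcases mem_insert.mp hp with rfl | hp
      · exact hcl
      · exact (h1 p hp).2.1
    have hprime : ∀ p ∈ insert r T, p.Prime := fun p hp => pr_of (hall p hp)
    rw [mem_coe, SS, mem_filter, mem_powerset]
    refine ⟨?_, hall, hprod'⟩
    intro p hp
    rw [mem_range]
    have h3 : p ∣ ∏ q ∈ insert r T, q := Finset.dvd_prod_of_mem _ hp
    have h4 : 0 < ∏ q ∈ insert r T, q := Finset.prod_pos fun q hq => (hprime q hq).pos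
    have := Nat.le_of_dvd h4 h3
    omega
  · rintro ⟨T, r⟩ ht ⟨T', r'⟩ ht' he
    rw [mem_coe, DD, mem_sigma, mem_filter, mem_range] at ht ht'
    obtain ⟨hT, hr, hry, hrp, hr56⟩ := ht
    obtain ⟨hT', hr', hry', hrp', hr56'⟩ := ht'
    obtain ⟨k1, k2⟩ := mem_M1 hT
    obtain ⟨k1', k2'⟩ := mem_M1 hT'
    simp only at hr hry hrp hr56 hr' hry' hrp' hr56' he
    have hrr : r = r' := by
      have : r ∈ insert r' T' := by rw [← he]; exact mem_insert_self _ _
      rw [mem_insert] at this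
      rcases this with h | h
      · exact h
      · have := (k1' r h).2.2
        omega
    subst hrr
    have hTT : T = T' := by
      have e1 : ∀ (S : Finset ℕ), (∀ p ∈ S, p ≤ y) →
          (insert r S).filter (fun p => p ≤ y) = S := by
        intro S hS
        ext p
        simp only [mem_filter, mem_insert]
        constructor
        · rintro ⟨rfl | h, h3⟩
          · omega
          · exact h
        · intro h; exact ⟨Or.inr h, hS p h⟩
      rw [← e1 T fun p hp => (k1 p hp).2.2, he, e1 T' fun p hp => (k1' p hp).2.2]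
    subst hTT
    rfl

theorem exists_root (X : ℕ) : ∃ y : ℕ, y ^ 8 ≤ X ∧ X < (y + 1) ^ 8 := by
  refine ⟨Nat.sqrt (Nat.sqrt (Nat.sqrt X)), ?_, ?_⟩
  · have h1 := Nat.sqrt_le' X
    have h2 := Nat.sqrt_le' (Nat.sqrt X)
    have h3 := Nat.sqrt_le' (Nat.sqrt (Nat.sqrt X))
    calc (Nat.sqrt (Nat.sqrt (Nat.sqrt X))) ^ 8 =
        (((Nat.sqrt (Nat.sqrt (Nat.sqrt X))) ^ 2) ^ 2) ^ 2 := by ring
      _ ≤ ((Nat.sqrt (Nat.sqrt X)) ^ 2) ^ 2 :=
          Nat.pow_le_pow_left (Nat.pow_le_pow_left h3 2) 2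
      _ ≤ (Nat.sqrt X) ^ 2 := Nat.pow_le_pow_left h2 2
      _ ≤ X := h1
  · have h1 := Nat.lt_succ_sqrt' X
    have h2 := Nat.lt_succ_sqrt' (Nat.sqrt X)
    have h3 := Nat.lt_succ_sqrt' (Nat.sqrt (Nat.sqrt X))
    calc X < (Nat.sqrt X + 1) ^ 2 := h1
      _ ≤ ((Nat.sqrt (Nat.sqrt X) + 1) ^ 2) ^ 2 := Nat.pow_le_pow_left h2 2
      _ ≤ (((Nat.sqrt (Nat.sqrt (Nat.sqrt X)) + 1) ^ 2) ^ 2) ^ 2 :=
          Nat.pow_le_pow_left (Nat.pow_le_pow_left h3 2) 2
      _ = _ := by ring

theorem log_le_two_sqrt {x : ℝ} (hx : 0 < x) : Real.log x ≤ 2 * Real.sqrt x := by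
  have h1 : 0 < Real.sqrt x := Real.sqrt_pos.mpr hx
  have h2 : Real.log x = 2 * Real.log (Real.sqrt x) := by
    rw [Real.log_sqrt hx.le]; ring
  rw [h2]
  have := Real.log_le_sub_one_of_pos h1
  linarith

theorem t_LOW : S_LOW := by
  intro hM hche G hok
  obtain ⟨a₀, ha₀⟩ := hok.hAn
  obtain ⟨C, hC⟩ := mert hM hok
  obtain ⟨c, Y₀, hc, hche⟩ := hche G.Q hok.q0
  have hQ8 : 8 ≤ G.Q := Nat.le_of_dvd hok.q0 hok.q8
  obtain ⟨y₀, hy₀⟩ : ∃ y₀ : ℕ, y₀ = max (max 5 Y₀) ⌈8 / c⌉₊ := ⟨_, rfl⟩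
  refine ⟨c / 20 * (1 / 2 * Real.exp (-C)) / 16, y₀ ^ 8, by positivity, ?_⟩
  intro X hX
  obtain ⟨y, hy1, hy2⟩ := exists_root X
  have hyy : y₀ ≤ y := by
    have : y₀ ^ 8 < (y + 1) ^ 8 := lt_of_le_of_lt hX hy2
    have := lt_of_pow_lt_pow_left₀ 8 (Nat.zero_le _) this
    omega
  have hy5 : 5 ≤ y := by
    have : 5 ≤ y₀ := by
      rw [hy₀]
      exact (le_max_left _ _).trans (le_max_left _ _)
    omega
  have hyY : Y₀ ≤ y := by
    have : Y₀ ≤ y₀ := by
      rw [hy₀]
      exact (le_max_right _ _).trans (le_max_left _ _)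
    omega
  have hyc : 8 / c ≤ (y : ℝ) := by
    have h1 : 8 / c ≤ (⌈8 / c⌉₊ : ℝ) := Nat.le_ceil _
    have h2 : ⌈8 / c⌉₊ ≤ y := by
      have : ⌈8 / c⌉₊ ≤ y₀ := by
        rw [hy₀]
        exact le_max_right _ _
      omega
    exact h1.trans (by exact_mod_cast h2)
  have hyR : (5 : ℝ) ≤ y := by exact_mod_cast hy5
  have hyX : y < X := by
    have : y < y ^ 8 := by
      calc y = y ^ 1 := (pow_one y).symm
        _ < y ^ 8 := Nat.pow_lt_pow_right (by omega) (by norm_num)
    omega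
  have hX1 : (1 : ℝ) < X := by exact_mod_cast (show 1 < X by omega)
  have hlogy : 0 < Real.log y := Real.log_pos (by linarith)
  have hlogX : 0 < Real.log X := Real.log_pos hX1
  have hlog16 : Real.log X ≤ 16 * Real.log y := by
    have h1 : X ≤ y ^ 16 := by
      have h2 : y + 1 ≤ y ^ 2 := by nlinarith
      calc X ≤ (y + 1) ^ 8 := hy2.le
        _ ≤ (y ^ 2) ^ 8 := Nat.pow_le_pow_left h2 8
        _ = y ^ 16 := by ring
    have : Real.log X ≤ Real.log ((y : ℝ) ^ 16) := by
      apply Real.log_le_log (by linarith)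
      exact_mod_cast h1
    rwa [Real.log_pow] at this
  -- the sum
  have hsum : ∑ T ∈ M1 (cls G) y, c / 20 * (X / Real.log X) *
      ((1 : ℝ) / ((∏ p ∈ T, p : ℕ) : ℝ)) ≤ ((DD G a₀ X y).card : ℝ) := by
    rw [DD, Finset.card_sigma, Nat.cast_sum]
    refine Finset.sum_le_sum fun T hT => ?_
    obtain ⟨h1, h2⟩ := mem_M1 hT
    obtain ⟨m, hm⟩ : ∃ m, m = ∏ p ∈ T, p := ⟨_, rfl⟩
    have k6 : 0 < ∏ p ∈ T, p := Finset.prod_pos fun p hp => (h1 p hp).1.pos
    rw [← hm] at h2 k6
    rw [← hm]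
    obtain ⟨Y, hYdef⟩ : ∃ Y, Y = X / m := ⟨_, rfl⟩
    have hYy : y ^ 6 ≤ Y := by
      rw [hYdef, Nat.le_div_iff_mul_le k6]
      calc y ^ 6 * m ≤ y ^ 6 * y ^ 2 := by
            apply Nat.mul_le_mul_left
            nlinarith
        _ = y ^ 8 := by ring
        _ ≤ X := hy1
    have hy6 : y ≤ y ^ 6 := Nat.le_self_pow (by norm_num) y
    have hY0 : Y₀ ≤ Y := by omega
    have hYX : Y ≤ X := by rw [hYdef]; exact Nat.div_le_self _ _
    have hY1 : (1 : ℝ) < (Y : ℝ) := by exact_mod_cast (show 1 < Y by omega)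
    have hlY : 0 < Real.log (Y : ℝ) := Real.log_pos hY1
    have hlYX : Real.log (Y : ℝ) ≤ Real.log X :=
      Real.log_le_log (by linarith) (by exact_mod_cast hYX)
    have h3 := hche Y hY0 a₀ (hok.hA a₀ ha₀).2
    have haa : a₀ % G.Q = a₀ := Nat.mod_eq_of_lt (hok.hA a₀ ha₀).1
    rw [haa] at h3
    -- discard the small primes
    have h4 : ((range (Y + 1)).filter fun p => p.Prime ∧ p % G.Q = a₀).card ≤
        ((range (Y + 1)).filter fun r => y < r ∧ r.Prime ∧ r % G.Q = a₀).card + (y + 1) := by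
      have h5 : ((range (Y + 1)).filter fun p => p.Prime ∧ p % G.Q = a₀) ⊆
          ((range (Y + 1)).filter fun r => y < r ∧ r.Prime ∧ r % G.Q = a₀) ∪
            range (y + 1) := by
        intro p hp
        rw [mem_filter] at hp
        rw [mem_union, mem_filter, mem_range]
        by_cases h : y < p
        · exact Or.inl ⟨mem_range.mp hp.1, h, hp.2⟩
        · right
          rw [mem_range]
          omega
      refine (Finset.card_le_card h5).trans ((Finset.card_union_le _ _).trans ?_)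
      rw [Finset.card_range]
    have h4' : (((range (Y + 1)).filter fun p => p.Prime ∧ p % G.Q = a₀).card : ℝ) ≤
        (((range (Y + 1)).filter fun r => y < r ∧ r.Prime ∧ r % G.Q = a₀).card : ℝ) +
          ((y : ℝ) + 1) := by
      exact_mod_cast h4
    have h6 : (y : ℝ) + 1 ≤ c / 2 * (Y / Real.log Y) := by
      have hs0 : 0 < Real.sqrt (Y : ℝ) := Real.sqrt_pos.mpr (by linarith)
      have hs1 : (y : ℝ) ^ 3 ≤ Real.sqrt (Y : ℝ) := by
        apply Real.le_sqrt_of_sq_le
        have : ((y : ℝ) ^ 3) ^ 2 = (y : ℝ) ^ 6 := by ring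
        rw [this]
        exact_mod_cast hYy
      have hs2 : Real.sqrt (Y : ℝ) / 2 ≤ Y / Real.log Y := by
        rw [le_div_iff₀ hlY]
        have h7 := log_le_two_sqrt (show (0 : ℝ) < Y by linarith)
        calc Real.sqrt (Y : ℝ) / 2 * Real.log Y ≤ Real.sqrt (Y : ℝ) / 2 * (2 * Real.sqrt Y) :=
              mul_le_mul_of_nonneg_left h7 (by positivity)
          _ = Real.sqrt (Y : ℝ) * Real.sqrt Y := by ring
          _ = Y := Real.mul_self_sqrt (by linarith)
      have hs3 : 8 ≤ c * (y : ℝ) := by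
        rw [div_le_iff₀ hc] at hyc
        linarith
      calc (y : ℝ) + 1 ≤ 8 / 4 * (y * 1) := by linarith
        _ ≤ c * y / 4 * (y * y) := by
            apply mul_le_mul _ _ (by positivity) (by positivity)
            · exact div_le_div_of_nonneg_right hs3 (by norm_num)
            · apply mul_le_mul_of_nonneg_left _ (by positivity)
              linarith
        _ = c / 2 * ((y : ℝ) ^ 3 / 2) := by ring
        _ ≤ c / 2 * (Real.sqrt Y / 2) := by
            apply mul_le_mul_of_nonneg_left _ (by positivity)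
            exact div_le_div_of_nonneg_right hs1 (by norm_num)
        _ ≤ c / 2 * (Y / Real.log Y) := mul_le_mul_of_nonneg_left hs2 (by positivity)
    have h7 : c / 2 * (Y / Real.log Y) ≤
        (((range (Y + 1)).filter fun r => y < r ∧ r.Prime ∧ r % G.Q = a₀).card : ℝ) := by
      have h8 : c * Y / Real.log Y = c / 2 * (Y / Real.log Y) + c / 2 * (Y / Real.log Y) := by ring
      rw [h8] at h3
      linarith
    rw [← hYdef]
    refine le_trans ?_ h7
    have hhalf : (X : ℝ) / (2 * m) ≤ (Y : ℝ) := by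
      have h9 : X < m * Y + m := by
        rw [hYdef]
        have := Nat.div_add_mod X m
        have := Nat.mod_lt X k6
        omega
      have h10 : (X : ℝ) < m * (Y : ℝ) + m := by exact_mod_cast h9
      have hm' : (0 : ℝ) < m := by exact_mod_cast k6
      rw [div_le_iff₀ (by positivity)]
      nlinarith
    have hm' : (0 : ℝ) < m := by exact_mod_cast k6
    have hX10 : (X : ℝ) / (10 * m) ≤ (X : ℝ) / (2 * m) := by
      apply div_le_div_of_nonneg_left (by positivity) (by positivity)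
      linarith
    calc c / 20 * (X / Real.log X) * ((1 : ℝ) / (m : ℝ)) =
        c / 2 * (((X : ℝ) / (10 * m)) / Real.log X) := by
          field_simp
          ring
      _ ≤ c / 2 * ((Y : ℝ) / Real.log X) := by
          apply mul_le_mul_of_nonneg_left _ (by positivity)
          apply div_le_div_of_nonneg_right _ hlogX.le
          exact hX10.trans hhalf
      _ ≤ c / 2 * ((Y : ℝ) / Real.log Y) := by
          apply mul_le_mul_of_nonneg_left _ (by positivity)
          apply div_le_div_of_nonneg_left (by positivity) hlY hlYX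
  rw [← Finset.mul_sum] at hsum
  have hG := G1_lower (cls G) (1 - dl G) C y (by omega) (hC y (by omega))
  have hdl : 1 - (1 - dl G) = dl G := by ring
  rw [hdl] at hG
  have hcard : ((DD G a₀ X y).card : ℝ) ≤ ((SS G X).card : ℝ) := by
    exact_mod_cast card_DD_le ha₀ X y
  refine le_trans ?_ (hsum.trans hcard)
  have h6 : 0 ≤ c / 20 * (X / Real.log X) := by positivity
  refine le_trans ?_ (mul_le_mul_of_nonneg_left hG h6)
  have hdl0 : 0 ≤ dl G := dl_nonneg G
  have hdl1 : dl G ≤ 1 := dl_le hok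
  have h7 : (Real.log X) ^ (dl G) ≤ 16 * (Real.log y) ^ (dl G) := by
    have h8 : (Real.log X) ^ (dl G) ≤ (16 * Real.log y) ^ (dl G) :=
      Real.rpow_le_rpow hlogX.le hlog16 hdl0
    rw [Real.mul_rpow (by norm_num) hlogy.le] at h8
    refine h8.trans ?_
    apply mul_le_mul_of_nonneg_right _ (by positivity)
    calc (16 : ℝ) ^ (dl G) ≤ 16 ^ (1 : ℝ) := Real.rpow_le_rpow_of_exponent_le (by norm_num) hdl1
      _ = 16 := Real.rpow_one _
  have h10 : (Real.log X) ^ (-1 + dl G : ℝ) = (Real.log X) ^ (dl G) / Real.log X := by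
    rw [Real.rpow_add hlogX, Real.rpow_neg_one]
    ring
  rw [h10]
  have hee : 0 < Real.exp (-C) := Real.exp_pos _
  calc c / 20 * (1 / 2 * Real.exp (-C)) / 16 * X * ((Real.log X) ^ (dl G) / Real.log X)
      = c / 20 * (X / Real.log X) * (1 / 2 * Real.exp (-C) / 16 * (Real.log X) ^ (dl G)) := by
        ring
    _ ≤ c / 20 * (X / Real.log X) *
        (1 / 2 * Real.exp (-C) / 16 * (16 * (Real.log y) ^ (dl G))) := by
        apply mul_le_mul_of_nonneg_left _ h6
        apply mul_le_mul_of_nonneg_left h7 (by positivity)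
    _ = c / 20 * (X / Real.log X) * (1 / 2 * Real.exp (-C) * (Real.log y) ^ (dl G)) := by ring


end Pool.Agent.U891.GY
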